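import Pool.Agent.helper82.CH.SpecN

/-!
# Row chn:ABX (MP_2e0e07_nt): the coefficients of the system
-/

set_option autoImplicit false

open NumberField Complex Pool.Agent.UN

namespace Pool.Agent.CH

/-- an ideal of norm prime to `m` gives an element of `H` -/
theorem ABX_mem (hCOP : COP_stmt) (hNHH : NHH_stmt) (F M : Type) [Field F] [NumberField F] [Field M] [NumberField M] [Algebra F M]
    (m : ℕ) (z : M) (H : Subgroup (ZMod m)ˣ) (hm : 0 < m) (hz : IsPrimitiveRoot z m) (had : Algebra.adjoin F {z} = ⊤)
    (hH : ∀ u : (ZMod m)ˣ, u ∈ H ↔ ∃ g : M ≃ₐ[F] M, g z = z ^ (u : ZMod m).val) (a : Ideal (𝓞 F)) (ha : a ≠ ⊥)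
    (u : (ZMod m)ˣ) (hu : ((Ideal.absNorm a : ℕ) : ZMod m) = u) : u ∈ H := by
  have hcop : (Ideal.absNorm a).Coprime m := by
    rw [← ZMod.isUnit_iff_coprime, hu]
    exact u.isUnit
  obtain ⟨g, hg⟩ := hNHH F M m z hm hz had a ha ((hCOP F m a hm ha).2 hcop)
  rw [hH]
  refine ⟨g, ?_⟩
  rw [hg, ← hu, ZMod.val_natCast]
  conv_lhs => rw [← Nat.mod_add_div (Ideal.absNorm a) m, pow_add, pow_mul, hz.pow_eq_one, one_pow, mul_one]

theorem ABX (hNCM : NCM_stmt) (hCOP : COP_stmt) (hNHH : NHH_stmt) (hTRV : TRV_stmt) : ABX_stmt := by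
  classical
  intro F M _ _ _ _ _ m z H _ hm hz had hH χ
  haveI : NeZero m := ⟨hm.ne'⟩
  obtain ⟨χ', hχ'⟩ := MonoidHom.domRestrict_surjective (M := ℂ) (G := (ZMod m)ˣ) H χ
  have hχ'' : ∀ y : H, χ' (y : (ZMod m)ˣ) = χ y := fun y => by rw [← hχ']; rfl
  have hψ : ∀ y : H, (MulChar.ofUnitHom χ' : DirichletCharacter ℂ m) (((y : (ZMod m)ˣ) : ZMod m)) = ((χ y : ℂˣ) : ℂ) := by
    intro y
    rw [MulChar.ofUnitHom_coe, hχ'']
  refine ⟨MulChar.ofUnitHom χ', ?_, ?_⟩
  · intro k
    rw [(hNCM F m (MulChar.ofUnitHom χ')).2.2.1 k]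
    unfold CHE.ak
    by_cases hk : ∃ y : H, ((k : ℕ) : ZMod m) = ((y : (ZMod m)ˣ) : ZMod m)
    · obtain ⟨y, hy⟩ := hk
      rw [Finset.sum_eq_single y]
      · unfold bb
        rw [if_pos hy, hy, hψ y]
      · intro y' _ hne
        unfold bb
        rw [if_neg, ofReal_zero, mul_zero]
        intro h
        apply hne
        apply Subtype.ext
        apply Units.ext
        rw [← h, hy]
      · intro h
        exact absurd (Finset.mem_univ y) h
    · have h0 : ∀ y : H, bb F H y k = 0 := by
        intro y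
        unfold bb
        rw [if_neg]
        intro h
        exact hk ⟨y, h⟩
      have h1 : ∑ y : H, ((χ y : ℂˣ) : ℂ) * (bb F H y k : ℂ) = 0 := by
        refine Finset.sum_eq_zero fun y _ => ?_
        rw [h0, ofReal_zero, mul_zero]
      rw [h1]
      by_cases hu : IsUnit ((k : ℕ) : ZMod m)
      · obtain ⟨u, hu⟩ := hu
        have huH : u ∉ H := fun h => hk ⟨⟨u, h⟩, hu.symm⟩
        have hempty : ∀ a ∈ idl F k, False := by
          intro a ha
          have hN : Ideal.absNorm a = k := by
            unfold idl at ha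
            rw [Set.Finite.mem_toFinset] at ha
            exact ha
          by_cases ha0 : a = ⊥
          · -- then `k = 0` is a unit modulo `m`
            have hk0 : k = 0 := by rw [← hN, ha0]; simp
            rw [hk0, Nat.cast_zero] at hu
            have hsub : Subsingleton (ZMod m) := by
              refine ⟨fun x y => ?_⟩
              have h2 : (1 : ZMod m) = 0 := by
                have := u.mul_inv
                rw [hu, zero_mul] at this
                exact this.symm
              calc x = x * 1 := (mul_one x).symm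
                _ = y * 1 := by rw [h2, mul_zero, mul_zero]
                _ = y := mul_one y
            apply huH
            have : u = 1 := Units.ext (Subsingleton.elim _ _)
            rw [this]
            exact H.one_mem
          · apply huH
            exact ABX_mem hCOP hNHH F M m z H hm hz had hH a ha0 u (by rw [hN, hu])
        have h2 : ∑ a ∈ idl F k, Lam a = 0 := Finset.sum_eq_zero fun a ha => (hempty a ha).elim
        rw [h2, ofReal_zero, mul_zero]
      · rw [MulChar.map_nonunit _ hu, zero_mul]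
  · constructor
    · intro hT
      ext y
      obtain ⟨g, hg⟩ := (hH (y : (ZMod m)ˣ)).1 y.2
      have h1 := hTRV F M m z (MulChar.ofUnitHom χ') hm hz had hT g _ hg
      rw [ZMod.natCast_zmod_val, hψ y] at h1
      rw [h1]
      rfl
    · intro hχ a ha haT
      unfold nch
      rw [if_neg ha]
      have hcop := (hCOP F m a hm ha).1 haT
      obtain ⟨u, hu⟩ := (ZMod.isUnit_iff_coprime (Ideal.absNorm a) m).2 hcop
      have huH : u ∈ H := ABX_mem hCOP hNHH F M m z H hm hz had hH a ha u hu.symm
      rw [← hu]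
      have h1 := hψ ⟨u, huH⟩
      rw [h1, hχ]
      simp

end Pool.Agent.CH
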